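import Pool.Agent.TH402.FB.Col

/-!
# The differences of a set of primes with bounded index gaps contain almost all of a Bohr set
-/

set_option autoImplicit false

namespace Pool.Agent.Results.MP_e61064_nt.AlmostNilBohr

open Filter

/-- the positive common differences of the arithmetic progressions of length `d + 1` in `S` -/
def C (d : ℕ) (S : Set ℕ) : Set ℕ := {n | 1 ≤ n ∧ ∃ a : ℕ, ∀ i ≤ d, a + i * n ∈ S}

/-- the Bohr neighbourhood of zero with frequencies `Θ` and radius `ρ`: the `n` such that for every `θ` in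
`Θ` the distance of `n * θ` to the nearest integer is less than `ρ` -/
def Bohr (Θ : Finset ℝ) (ρ : ℝ) : Set ℕ := {n | ∀ θ ∈ Θ, |(n : ℝ) * θ - round ((n : ℝ) * θ)| < ρ}

/-- `S` is a set of primes that has an element among any `m` consecutive primes -/
def BoundedGaps (m : ℕ) (S : Set ℕ) : Prop :=
  (∀ p ∈ S, p.Prime) ∧ ∀ j : ℕ, ∃ i < m, Nat.nth Nat.Prime (j + i) ∈ S

/-- Let `S` be a set of primes with an element among any `m` consecutive primes, and `a` coprime to `q`. There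
is a Bohr neighbourhood of zero, which has bounded gaps, and almost all (in the sense of Banach density)
elements `n` of it are common differences of two-term progressions in `S`, and in `S ∩ (a + q ℤ)`. -/
theorem result (m : ℕ) (S : Set ℕ) (hS : BoundedGaps m S) (q a : ℕ) (hq : 1 ≤ q) (ha : a.Coprime q) :
    ∃ (Θ : Finset ℝ) (ρ : ℝ), 0 < ρ ∧ (∃ L : ℕ, ∀ u : ℕ, ∃ n : ℕ, u < n ∧ n ≤ u + L ∧ n ∈ Bohr Θ ρ) ∧
    ∀ ε : ℝ, 0 < ε → ∃ L₀ : ℕ, ∀ L : ℕ, L₀ ≤ L → ∀ u : ℕ,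
      ({n : ℕ | u < n ∧ n ≤ u + L ∧ n ∈ Bohr Θ ρ ∧
        n ∉ C 1 {p | p ∈ S ∧ p ≡ a [MOD q]}}.ncard : ℝ) ≤ ε * L := by
  classical
  obtain ⟨hS1, hS2⟩ := hS
  have hR : ∀ j : ℕ, ∃ i l, j ≤ i ∧ i < l ∧ l ≤ j + 2 * m ∧
      (Nat.nth Nat.Prime i ∈ S ∧ Nat.nth Nat.Prime l ∈ S) := by
    intro j
    obtain ⟨i, hi, h1⟩ := hS2 j
    obtain ⟨l, hl, h2⟩ := hS2 (j + m)
    exact ⟨j + i, j + m + l, by omega, by omega, by omega, h1, h2⟩
  obtain ⟨M₁, hM, T, ρ₀, hρ₀, hnull⟩ := Pool.Agent.TH402.FB.gapsR q a hq ha (2 * m)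
    (R := fun i l => Nat.nth Nat.Prime i ∈ S ∧ Nat.nth Nat.Prime l ∈ S) hR
  obtain ⟨Θ, ρ, hρ, H⟩ := Pool.Agent.TH402.FB.transfer hM hq hρ₀ hnull
  refine ⟨Θ, ρ, hρ, Pool.Agent.TH402.FB.syn Θ ρ hρ, fun ε hε => ?_⟩
  obtain ⟨L₀, h⟩ := H ε hε
  refine ⟨L₀, fun L hL u => le_trans ?_ (h L hL u)⟩
  rw [Nat.cast_le]
  refine Set.ncard_le_ncard ?_ ((Set.finite_le_nat (u + L)).subset fun d hd => hd.2.1)
  rintro d ⟨h1, h2, h3, h4⟩
  refine ⟨h1, h2, h3, ?_⟩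
  rintro ⟨c, hc, rfl⟩
  apply h4
  have hc' : Pool.Agent.H732R3.BigQ.Big {n : ℕ | n.Prime ∧ n ≡ a [MOD q] ∧ (n + q * c).Prime ∧
    Nat.count Nat.Prime n < Nat.count Nat.Prime (n + q * c) ∧
    Nat.count Nat.Prime (n + q * c) ≤ Nat.count Nat.Prime n + 2 * m ∧
    (Nat.nth Nat.Prime (Nat.count Nat.Prime n) ∈ S ∧
      Nat.nth Nat.Prime (Nat.count Nat.Prime (n + q * c)) ∈ S)} := hc
  obtain ⟨n, g1, g2, g3, g4, g5, g6, g7⟩ := hc'.infinite.nonempty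
  rw [Nat.nth_count g1] at g6
  rw [Nat.nth_count g3] at g7
  refine ⟨by omega, n, fun i hi => ?_⟩
  rcases Nat.le_one_iff_eq_zero_or_eq_one.1 hi with rfl | rfl
  · rw [zero_mul, add_zero]
    exact ⟨g6, g2⟩
  · rw [one_mul]
    refine ⟨g7, ?_⟩
    have h5 : q * c ≡ 0 [MOD q] := by
      rw [Nat.modEq_zero_iff_dvd]
      exact dvd_mul_right q c
    simpa using g2.add h5

end Pool.Agent.Results.MP_e61064_nt.AlmostNilBohr
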